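import Pool.Agent.Lib_helper34.EclTF.MCH
import Pool.Agent.Lib_helper51.EclC.Nodes

/-!
# The covering graph of the restricted three-body problem at the Jacobi constant `14/5`
-/

set_option autoImplicit false

namespace Pool.Agent.Ecl

open Set

/-- the states of the graph -/
inductive GSt
  | M1 | M2 | R1 | R2 | L1 | L1' | L2 | L2' | s0
  deriving DecidableEq

/-- the chains of nodes -/
noncomputable def gleg : GSt → Ex → List K.Node
  | .M1, .mid => [K.nM1M]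
  | .M1, .lft => [K.nM1R]
  | .M1, .rgt => [K.nM1L, K.nMLa, K.nMLb]
  | .M2, .mid => [K.nM2M]
  | .M2, .lft => [K.nM2R]
  | .M2, .rgt => [K.nM2L, K.nMLa, K.nMLb]
  | .R1, .mid => [K.nR1M]
  | .R1, .lft => [K.nR1R]
  | .R1, .rgt => [K.nR1L]
  | .R2, .mid => [K.nR2M]
  | .R2, .lft => [K.nR2R]
  | .R2, .rgt => [K.nR2L]
  | .L1, .mid => [K.nL1M, K.nLMc, K.nLMd]
  | .L1, .lft => [K.nL1R]
  | .L1, .rgt => [K.nL1L, K.nLLb, K.nLLc]
  | .L1', .mid => [K.nL1M, K.nLMc, K.nLMd]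
  | .L1', .lft => [K.nL1R]
  | .L1', .rgt => [K.nL1L, K.nLLb, K.nLLc]
  | .L2, .mid => [K.nL2M, K.nLMC, K.nLMd]
  | .L2, .lft => [K.nL2R]
  | .L2, .rgt => [K.nL2L, K.nLLB, K.nLLc]
  | .L2', .mid => [K.nL2M, K.nLMC, K.nLMd]
  | .L2', .lft => [K.nL2R]
  | .L2', .rgt => [K.nL2L, K.nLLB, K.nLLc]
  | .s0, .mid => [K.nSM]
  | .s0, .lft => [K.nSR]
  | .s0, .rgt => [K.nSL]

/-- the next state -/
def gnxt : GSt → Ex → GSt
  | .M1, .mid => .M1
  | .M2, .mid => .M1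
  | .R1, .mid => .M1
  | .R2, .mid => .M1
  | .s0, .mid => .M1
  | .L1, .mid => .M2
  | .L1', .mid => .M2
  | .L2, .mid => .M2
  | .L2', .mid => .M2
  | .M1, .lft => .R1
  | .M2, .lft => .R1
  | .R1, .lft => .R1
  | .R2, .lft => .R1
  | .s0, .lft => .R1
  | .L1, .lft => .R2
  | .L1', .lft => .R2
  | .L2, .lft => .R2
  | .L2', .lft => .R2
  | .M1, .rgt => .L1
  | .M2, .rgt => .L1
  | .s0, .rgt => .L1
  | .L1, .rgt => .L1'
  | .L1', .rgt => .L1'
  | .L2, .rgt => .L1'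
  | .L2', .rgt => .L1'
  | .R1, .rgt => .L2
  | .R2, .rgt => .L2'

/-- the collision nodes -/
noncomputable def gfin : GSt → K.Node
  | .M1 => K.nM1E
  | .M2 => K.nM2E
  | .R1 => K.nR1E
  | .R2 => K.nR2E
  | .L1 => K.nL1E
  | .L1' => K.nL1F
  | .L2 => K.nL2E
  | .L2' => K.nL2F
  | .s0 => K.nSE

/-- the graph -/
noncomputable def gG : Graph := ⟨GSt, gleg, gnxt, gfin, .s0⟩

theorem gG_chains : ∀ (q : GSt) (e : Ex), ChainOK e (gG.heads (gnxt q e)) (gleg q e) := by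
  intro q e
  cases q <;> cases e <;> decide +kernel

theorem gG_tgt : ∀ q : GSt, (gfin q).tgt = 4 := by
  intro q
  cases q <;> rfl

theorem gG_start : ∀ n ∈ gG.heads .s0, StartN n := by
  decide +kernel

/-- all nodes of the graph -/
noncomputable def gNodes : List K.Node :=
  [K.nM1M, K.nM1R, K.nM1L, K.nM2M, K.nM2R, K.nM2L, K.nR1M, K.nR1R, K.nR1L, K.nR2M, K.nR2R, K.nR2L,
   K.nL1M, K.nL1R, K.nL1L, K.nL2M, K.nL2R, K.nL2L, K.nMLa, K.nMLb, K.nLMc, K.nLMC, K.nLMd, K.nLLb,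
   K.nLLB, K.nLLc, K.nL1E, K.nL1F, K.nSM, K.nSR, K.nSL, K.nSE, K.nM1E, K.nM2E, K.nR1E, K.nR2E,
   K.nL2E, K.nL2F]

/-- **Statement (I)** from the covering relations of all nodes. -/
theorem statementI_of_nodes (h : ∀ n ∈ gNodes, NodeOK n) : StatementI := by
  refine statementI_of_graph gG ⟨gG_chains, ?_, ?_⟩ gG_start
  · intro q e n hn
    refine h n ?_
    revert n
    cases q <;> cases e <;> simp [gG, gleg, gNodes]
  · intro q
    refine ⟨gG_tgt q, h _ ?_⟩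
    cases q <;> simp [gG, gfin, gNodes]

end Pool.Agent.Ecl
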